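import Mathlib
import Pool.Agent.Helper87.LD.Dens
import Pool.Agent.Helper87.LD.Cnt
import Pool.Agent.Helper87.LW.Mult

/-!
# LW1: a criterion for good reduction of self-maps of the projective line
-/

set_option autoImplicit false

namespace Pool.Agent.Helper87.LW1

open MvPolynomial Pool.Agent.Helper87.LD
open Pool.Agent.Helper26.FD (eval_smul_hom')

section field

variable {d : ℕ} {k : Type*} [Field k]

/-- the Jacobian criterion, with one derivative -/
theorem crit {F : Fin 2 → MvPolynomial (Fin 2) k} (hF : ∀ i, (F i).IsHomogeneous d)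
    {x : Fin 2 → k} {j j' : Fin 2} (hj : j ≠ j') (hx : x j' ≠ 0)
    (h : eval x (pderiv j (F 0)) * eval x (F 1) - eval x (pderiv j (F 1)) * eval x (F 0) ≠ 0) :
    ev F x ≠ 0 ∧ Etale x (ev F x) (jac F x) := by
  have hJ : (jac F x).mulVec x = (d : k) • ev F x := by
    funext i
    have h1 := congrArg (eval x) (hF i).sum_X_mul_pderiv
    rw [map_sum, map_nsmul] at h1
    simp only [map_mul, eval_X, nsmul_eq_mul] at h1
    simp only [jac, Matrix.mulVec, dotProduct, Matrix.of_apply, Pi.smul_apply, ev, smul_eq_mul]
    rw [← h1]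
    exact Finset.sum_congr rfl fun j _ => mul_comm _ _
  refine ⟨fun h0 => h ?_, ?_⟩
  · have h1 : eval x (F 0) = 0 := congrFun h0 0
    have h2 : eval x (F 1) = 0 := congrFun h0 1
    rw [h1, h2, mul_zero, mul_zero, sub_zero]
  · rintro y ⟨s, hs⟩
    -- `y = a x + b e_j`
    set a : k := y j' / x j' with ha
    set b : k := y j - a * x j with hb
    have hcases : ∀ i : Fin 2, i = j ∨ i = j' := by
      intro i
      fin_cases i <;> fin_cases j <;> fin_cases j' <;> simp_all
    have hy : y = a • x + b • (Pi.single j 1 : Fin 2 → k) := by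
      funext i
      rw [Pi.add_apply, Pi.smul_apply, Pi.smul_apply, smul_eq_mul, smul_eq_mul]
      rcases hcases i with rfl | rfl
      · rw [Pi.single_eq_same, mul_one, hb]
        ring
      · rw [Pi.single_eq_of_ne hj.symm, mul_zero, add_zero, ha, div_mul_cancel₀ _ hx]
    have h1 : ∀ i, b * eval x (pderiv j (F i)) = (s - a * d) * eval x (F i) := by
      intro i
      have h2 := congrFun hs i
      rw [hy, Matrix.mulVec_add, Matrix.mulVec_smul, Matrix.mulVec_smul, hJ] at h2
      have h3 : (jac F x).mulVec (Pi.single j 1) i = eval x (pderiv j (F i)) := by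
        rw [Matrix.mulVec_single_one]
        rfl
      rw [Pi.add_apply, Pi.smul_apply, Pi.smul_apply, Pi.smul_apply, Pi.smul_apply, h3] at h2
      simp only [smul_eq_mul, ev] at h2
      linear_combination h2
    have hb0 : b = 0 := by
      by_contra hb0
      apply h
      have h2 := h1 0
      have h3 := h1 1
      have h4 : b * (eval x (pderiv j (F 0)) * eval x (F 1) -
          eval x (pderiv j (F 1)) * eval x (F 0)) = 0 := by
        linear_combination eval x (F 1) * h2 - eval x (F 0) * h3
      exact (mul_eq_zero.1 h4).resolve_left hb0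
    refine ⟨a, ?_⟩
    rw [hy, hb0, zero_smul, add_zero]

end field

/-- the polynomial `F (X, 1)` -/
noncomputable def deh {R : Type*} [CommRing R] (F : MvPolynomial (Fin 2) R) : Polynomial R :=
  MvPolynomial.aeval ![Polynomial.X, 1] F

theorem eval₂_deh {R S : Type*} [CommRing R] [CommRing S] (φ : R →+* S) (t : S)
    (F : MvPolynomial (Fin 2) R) : Polynomial.eval₂ φ t (deh F) = eval ![t, 1] (map φ F) := by
  induction F using MvPolynomial.induction_on with
  | C a => simp [deh]
  | add P Q hP hQ =>
    rw [deh] at hP hQ ⊢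
    rw [map_add, Polynomial.eval₂_add, hP, hQ, map_add, map_add]
  | mul_X P i hP =>
    rw [deh] at hP ⊢
    rw [map_mul, Polynomial.eval₂_mul, hP, map_mul, map_mul, aeval_X, map_X, eval_X]
    congr 1
    fin_cases i <;> simp

theorem derivative_deh {R : Type*} [CommRing R] (F : MvPolynomial (Fin 2) R) :
    Polynomial.derivative (deh F) = deh (pderiv 0 F) := by
  induction F using MvPolynomial.induction_on with
  | C a => simp [deh]
  | add P Q hP hQ =>
    rw [deh] at hP hQ ⊢
    rw [map_add, Polynomial.derivative_add, hP, hQ, map_add, deh, deh, deh, map_add]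
  | mul_X P i hP =>
    rw [deh, deh] at hP
    rw [deh, map_mul, Polynomial.derivative_mul, hP, Derivation.leibniz, deh, map_add,
      smul_eq_mul, smul_eq_mul, map_mul, map_mul, aeval_X]
    fin_cases i
    · simp [pderiv_X_self]
      ring
    · simp [pderiv_X_of_ne]

section good

variable {p : ℕ} [hp : Fact p.Prime] {d : ℕ}

/-- the Wronskian of a pair of polynomials -/
noncomputable def wr {R : Type*} [CommRing R] (f₀ f₁ : Polynomial R) : Polynomial R :=
  Polynomial.derivative f₀ * f₁ - Polynomial.derivative f₁ * f₀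

/-- **The criterion.** -/
theorem goodD_of_wr {D : ℕ} {F : Fin 2 → MvPolynomial (Fin 2) (ZMod p)}
    (hF : ∀ i, (F i).IsHomogeneous d)
    (h1 : IsCoprime (wr (deh (F 0)) (deh (F 1)))
      (Polynomial.X ^ (p ^ D.factorial) - Polynomial.X))
    (h2 : eval ![1, 0] (pderiv 1 (F 0)) * eval ![1, 0] (F 1) -
      eval ![1, 0] (pderiv 1 (F 1)) * eval ![1, 0] (F 0) ≠ 0) : GoodD D F := by
  classical
  intro κ _ _ φ hκ x hx
  have hch : CharP κ p := by
    have := charP_of_injective_ringHom φ.injective p
    exact this
  have hFκ : ∀ i, (map φ (F i)).IsHomogeneous d := fun i => (hF i).map φ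
  by_cases hx1 : x 1 = 0
  · -- the point at infinity
    have hx0 : x 0 ≠ 0 := by
      intro h
      apply hx
      funext i
      fin_cases i
      · exact h
      · exact hx1
    have hxe : x = fun i => x 0 * (![1, 0] : Fin 2 → κ) i := by
      funext i
      fin_cases i
      · simp
      · simpa using hx1
    have hev : ∀ {e : ℕ} {G : MvPolynomial (Fin 2) (ZMod p)}, G.IsHomogeneous e →
        eval x (map φ G) = x 0 ^ e * φ (eval ![1, 0] G) := by
      intro e G hG
      conv_lhs => rw [hxe]
      rw [eval_smul_hom' (hG.map φ)]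
      congr 1
      have h3 : (![1, 0] : Fin 2 → κ) = fun i => φ ((![1, 0] : Fin 2 → ZMod p) i) := by
        funext i
        fin_cases i <;> simp
      rw [h3, ← eval_hom]
    have hc := crit hFκ (x := x) (j := 1) (j' := 0) (by decide) hx0 (by
      rw [pderiv_map, pderiv_map, hev (hF 0).pderiv, hev (hF 1).pderiv, hev (hF 0), hev (hF 1)]
      intro h0
      apply h2
      have h3 : (x 0 ^ (d - 1) * x 0 ^ d) * φ (eval ![1, 0] (pderiv 1 (F 0)) *
          eval ![1, 0] (F 1) - eval ![1, 0] (pderiv 1 (F 1)) * eval ![1, 0] (F 0)) = 0 := by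
        rw [map_sub, map_mul, map_mul]
        linear_combination h0
      exact (map_eq_zero φ).1 ((mul_eq_zero.1 h3).resolve_left
        (mul_ne_zero (pow_ne_zero _ hx0) (pow_ne_zero _ hx0))))
    exact ⟨hc.1, fun _ => hc.2⟩
  · set t : κ := x 0 / x 1 with ht
    have hxe : x = fun i => x 1 * (![t, 1] : Fin 2 → κ) i := by
      funext i
      fin_cases i
      · simp [ht, mul_div_cancel₀ _ hx1]
      · simp
    have hev : ∀ {e : ℕ} {G : MvPolynomial (Fin 2) (ZMod p)}, G.IsHomogeneous e →
        eval x (map φ G) = x 1 ^ e * Polynomial.eval₂ φ t (deh G) := by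
      intro e G hG
      conv_lhs => rw [hxe]
      rw [eval_smul_hom' (hG.map φ), eval₂_deh]
    have hw : Polynomial.eval₂ φ t (wr (deh (F 0)) (deh (F 1))) ≠ 0 := by
      obtain ⟨a, b, hab⟩ := h1
      have h3 := congrArg (Polynomial.eval₂ φ t) hab
      have h4 : Polynomial.eval₂ φ t (Polynomial.X ^ (p ^ D.factorial) - Polynomial.X) = 0 := by
        rw [Polynomial.eval₂_sub, Polynomial.eval₂_pow, Polynomial.eval₂_X,
          LW.pow_card_factorial D hκ, sub_self]
      rw [Polynomial.eval₂_add, Polynomial.eval₂_mul, Polynomial.eval₂_mul, h4, mul_zero,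
        add_zero, Polynomial.eval₂_one] at h3
      exact right_ne_zero_of_mul_eq_one h3
    have hc := crit hFκ (x := x) (j := 0) (j' := 1) (by decide) hx1 (by
      rw [pderiv_map, pderiv_map, hev (hF 0).pderiv, hev (hF 1).pderiv, hev (hF 0), hev (hF 1),
        ← derivative_deh, ← derivative_deh]
      intro h0
      apply hw
      have h3 : (x 1 ^ (d - 1) * x 1 ^ d) * Polynomial.eval₂ φ t
          (wr (deh (F 0)) (deh (F 1))) = 0 := by
        rw [wr, Polynomial.eval₂_sub, Polynomial.eval₂_mul, Polynomial.eval₂_mul]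
        linear_combination h0
      exact (mul_eq_zero.1 h3).resolve_left
        (mul_ne_zero (pow_ne_zero _ hx1) (pow_ne_zero _ hx1)))
    exact ⟨hc.1, fun _ => hc.2⟩

end good

end Pool.Agent.Helper87.LW1
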