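import Mathlib

/-!
# LW1: matrices with invertible determinant over `F_p[X] / (X ^ (p ^ m) - X)`

Proof of `card_isUnit_det` in words.  Put `R = F_p[X] / (h)`, `h = X ^ (p ^ m) - X`.  `h` is separable
(`h' = -1`), so `R` is a finite reduced ring, `R ≃+* Π_M R ⧸ M` over the maximal ideals `M`
(`IsArtinianRing.equivPi`).  A matrix over the product has invertible determinant iff every component
has nonzero determinant; over a field with `Q` elements there are `(Q ^ 2 - 1) * (Q ^ 2 - Q)` such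
`2 × 2` matrices (`Matrix.card_GL_field`), and `(Q ^ 2 - 1) * (Q ^ 2 - Q) ≥ Q ^ 4 * (1 - 1 / Q) ^ 2
≥ Q ^ 4 * 16 ^ (- 1 / Q)` since `1 - t ≥ 4 ^ (-t)` for `0 ≤ t ≤ 1 / 2` (concavity).  So the
proportion is at least `16 ^ (- Σ_M 1 / |R ⧸ M|)`.  Finally `Σ_M 1 / |R ⧸ M| ≤ m`: the field `R ⧸ M`
is generated by the class `x` of `X`, and `x ^ (p ^ m) = x`, so all elements `y` of `R ⧸ M` satisfy
`y ^ (p ^ m) = y`, hence `|R ⧸ M| = p ^ k` with `1 ≤ k ≤ m` (even `k ∣ m`); and the number of `M`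
with `|R ⧸ M| = p ^ k` is at most `p ^ k`, because `M` is determined by the minimal polynomial of `x`,
which is monic of degree `k` (`M` is generated by it).
-/

set_option autoImplicit false

namespace Pool.Agent.Helper87.LW1

open Polynomial

/-- the ring of the points over the field with `p ^ m` elements of the affine line -/
noncomputable abbrev RR (p m : ℕ) : Type := AdjoinRoot (X ^ (p ^ m) - X : (ZMod p)[X])

private theorem monic54 (p : ℕ) [Fact p.Prime] (m : ℕ) (hm : 1 ≤ m) :
    (X ^ (p ^ m) - X : (ZMod p)[X]).Monic := by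
  apply monic_X_pow_sub
  rw [degree_X]
  have h2 : 1 < p ^ m := Nat.one_lt_pow (by omega) (Fact.out : p.Prime).one_lt
  exact_mod_cast h2

private theorem finite54 (p : ℕ) [Fact p.Prime] (m : ℕ) (hm : 1 ≤ m) : Finite (RR p m) := by
  have := (monic54 p m hm).finite_adjoinRoot
  exact Module.finite_of_finite (ZMod p)

private theorem reduced54 (p : ℕ) [Fact p.Prime] (m : ℕ) (hm : 1 ≤ m) :
    IsReduced (RR p m) := by
  have hsep : (X ^ (p ^ m) - X : (ZMod p)[X]).Separable :=
    galois_poly_separable p (p ^ m) (dvd_pow_self p (by omega))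
  have hrad : (Ideal.span {(X ^ (p ^ m) - X : (ZMod p)[X])}).IsRadical :=
    isRadical_iff_span_singleton.1 hsep.squarefree.isRadical
  exact (Ideal.isRadical_iff_quotient_reduced _).1 hrad

/-- ring homomorphisms out of `RR p m` with the same value at the root are equal -/
private theorem hom_ext54 {p : ℕ} [Fact p.Prime] {m : ℕ} {S : Type} [CommRing S]
    (f g : RR p m →+* S) (h : f (AdjoinRoot.root _) = g (AdjoinRoot.root _)) : f = g := by
  refine Ideal.Quotient.ringHom_ext (Polynomial.ringHom_ext' ?_ ?_)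
  · exact RingHom.ext_zmod _ _
  · exact h

/-- all elements of a residue field are fixed by the `m`-th power of Frobenius -/
private theorem fix54 {p : ℕ} [Fact p.Prime] {m : ℕ} {K : Type} [Field K] [CharP K p]
    (f : RR p m →+* K) (hf : Function.Surjective f) (y : K) : y ^ (p ^ m) = y := by
  have h1 : (iterateFrobenius K p m).comp f = f := by
    apply hom_ext54
    rw [RingHom.comp_apply, iterateFrobenius_def, ← map_pow]
    congr 1
    have h2 : (AdjoinRoot.mk (X ^ (p ^ m) - X : (ZMod p)[X])) (X ^ (p ^ m) - X) = 0 :=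
      AdjoinRoot.mk_self
    rw [map_sub, map_pow, AdjoinRoot.mk_X, sub_eq_zero] at h2
    exact h2
  obtain ⟨r, rfl⟩ := hf y
  have h3 := RingHom.congr_fun h1 r
  rwa [RingHom.comp_apply, iterateFrobenius_def] at h3

/-- the size of a residue field -/
private theorem card_field54 {p : ℕ} [Fact p.Prime] {m : ℕ} {K : Type} [Field K] [Finite K]
    (f : RR p m →+* K) (hf : Function.Surjective f) (hm : 1 ≤ m) :
    ∃ k ∈ Finset.Icc 1 m, Nat.card K = p ^ k := by
  classical
  have : CharP K p := by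
    have : Algebra (ZMod p) K := (f.comp (algebraMap (ZMod p) (RR p m))).toAlgebra
    exact charP_of_injective_algebraMap (algebraMap (ZMod p) K).injective p
  let := Fintype.ofFinite K
  obtain ⟨n, -, hn⟩ := FiniteField.card K p
  refine ⟨n, Finset.mem_Icc.2 ⟨n.2, ?_⟩, by rw [Nat.card_eq_fintype_card, hn]⟩
  have hp1 : 1 < p := (Fact.out : p.Prime).one_lt
  have h2 : 1 < p ^ m := Nat.one_lt_pow (by omega) hp1
  have hne : (X ^ (p ^ m) - X : K[X]) ≠ 0 := FiniteField.X_pow_card_sub_X_ne_zero K h2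
  have h3 : (Finset.univ : Finset K) ⊆ (X ^ (p ^ m) - X : K[X]).roots.toFinset := by
    intro y _
    rw [Multiset.mem_toFinset, mem_roots hne, IsRoot.def, eval_sub, eval_pow, eval_X,
      sub_eq_zero]
    exact fix54 f hf y
  have h4 := Finset.card_le_card h3
  have h5 := (Multiset.toFinset_card_le (X ^ (p ^ m) - X : K[X]).roots).trans (card_roots' _)
  rw [FiniteField.X_pow_card_sub_X_natDegree_eq K h2] at h5
  rw [Finset.card_univ, hn] at h4
  exact (Nat.pow_le_pow_iff_right hp1).1 (h4.trans h5)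

/-- the number of residue fields of given size -/
private theorem card_max54 (p : ℕ) [Fact p.Prime] (m k : ℕ) (hk : 1 ≤ k) (hm : 1 ≤ m)
    (s : Finset (MaximalSpectrum (RR p m)))
    (hs : ∀ I ∈ s, Nat.card (RR p m ⧸ I.asIdeal) = p ^ k) : s.card ≤ p ^ k := by
  classical
  have := finite54 p m hm
  have hex : ∀ I : s, ∃ f : RR p m →+* GaloisField p k, RingHom.ker f = I.1.asIdeal := by
    rintro ⟨I, hI⟩
    have : I.asIdeal.IsMaximal := I.isMaximal
    have : Finite (RR p m ⧸ I.asIdeal) :=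
      Finite.of_surjective (Ideal.Quotient.mk I.asIdeal) Ideal.Quotient.mk_surjective
    let : Field (RR p m ⧸ I.asIdeal) := Ideal.Quotient.field I.asIdeal
    let : Fintype (RR p m ⧸ I.asIdeal) := Fintype.ofFinite _
    let : Fintype (GaloisField p k) := Fintype.ofFinite _
    have h1 : Fintype.card (RR p m ⧸ I.asIdeal) = Fintype.card (GaloisField p k) := by
      rw [← Nat.card_eq_fintype_card, ← Nat.card_eq_fintype_card, hs I hI,
        GaloisField.card p k (by omega)]
    let e := FiniteField.ringEquivOfCardEq h1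
    refine ⟨(e : (RR p m ⧸ I.asIdeal) →+* GaloisField p k).comp
      (Ideal.Quotient.mk I.asIdeal), ?_⟩
    ext x
    rw [RingHom.mem_ker, RingHom.comp_apply]
    constructor
    · intro h
      have h2 : e (Ideal.Quotient.mk I.asIdeal x) = 0 := h
      rw [map_eq_zero_iff e e.injective] at h2
      exact Ideal.Quotient.eq_zero_iff_mem.1 h2
    · intro h
      rw [Ideal.Quotient.eq_zero_iff_mem.2 h, map_zero]
  choose f hf using hex
  have hinj : Function.Injective fun I : s => f I (AdjoinRoot.root _) := by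
    intro I J hIJ
    have h1 : f I = f J := hom_ext54 _ _ hIJ
    apply Subtype.ext
    apply MaximalSpectrum.ext
    rw [← hf I, ← hf J, h1]
  have : Finite (GaloisField p k) := inferInstance
  have h2 := Nat.card_le_card_of_injective _ hinj
  rwa [GaloisField.card p k (by omega), Nat.card_eq_fintype_card, Fintype.card_coe] at h2

private theorem pow_ge54 (Q : ℕ) (hQ : 2 ≤ Q) : (1 / 4 : ℝ) ≤ (1 - 1 / (Q : ℝ)) ^ Q := by
  have hQ' : (2 : ℝ) ≤ Q := by exact_mod_cast hQ
  have hinv : 1 / (Q : ℝ) ≤ 1 := by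
    rw [div_le_one (by linarith)]
    linarith
  have h0 : (0 : ℝ) ≤ 1 + -(1 / (Q : ℝ)) := by linarith
  have h1 : 1 + ((Q : ℝ) / 2) * (-(1 / (Q : ℝ))) ≤ (1 + -(1 / (Q : ℝ))) ^ ((Q : ℝ) / 2) :=
    one_add_mul_self_le_rpow_one_add (by linarith) (by linarith)
  have h2 : 1 + ((Q : ℝ) / 2) * (-(1 / (Q : ℝ))) = 1 / 2 := by
    field_simp
    ring
  rw [h2] at h1
  have h3 : (1 - 1 / (Q : ℝ)) ^ Q = ((1 + -(1 / (Q : ℝ))) ^ ((Q : ℝ) / 2)) ^ 2 := by
    rw [← Real.rpow_natCast _ 2, ← Real.rpow_mul h0, ← sub_eq_add_neg, ← Real.rpow_natCast]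
    congr 1
    push_cast
    ring
  rw [h3]
  nlinarith

/-- the number of invertible matrices over a field -/
private theorem card_gl54 (K : Type) [Field K] [Finite K] :
    ((Nat.card K : ℝ)) ^ 4 * (1 - 1 / (Nat.card K : ℝ)) ^ 2 ≤
      (Nat.card {A : Matrix (Fin 2) (Fin 2) K // IsUnit A.det} : ℝ) := by
  classical
  let := Fintype.ofFinite K
  have h1 : Nat.card {A : Matrix (Fin 2) (Fin 2) K // IsUnit A.det} =
      Nat.card (Matrix.GeneralLinearGroup (Fin 2) K) := by
    refine Nat.card_congr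
      { toFun := fun A => Matrix.nonsingInvUnit A.1 A.2
        invFun := fun g => ⟨g.1, (Matrix.isUnit_iff_isUnit_det _).1 g.isUnit⟩
        left_inv := fun A => rfl
        right_inv := fun g => Units.ext rfl }
  have h2 := Matrix.card_GL_field (𝔽 := K) 2
  rw [h1, h2, Fin.prod_univ_two, Nat.card_eq_fintype_card]
  have hq : 1 < Fintype.card K := Fintype.one_lt_card
  set q := Fintype.card K
  have h3 : q ^ ((0 : Fin 2) : ℕ) ≤ q ^ 2 := Nat.pow_le_pow_right (by omega) (by simp)
  have h4 : q ^ ((1 : Fin 2) : ℕ) ≤ q ^ 2 := Nat.pow_le_pow_right (by omega) (by simp)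
  rw [Nat.cast_mul, Nat.cast_sub h3, Nat.cast_sub h4]
  have hq' : (1 : ℝ) < q := by exact_mod_cast hq
  have h5 : ((q : ℝ)) ^ 4 * (1 - 1 / (q : ℝ)) ^ 2 = (q : ℝ) ^ 2 * ((q : ℝ) - 1) ^ 2 := by
    field_simp
  rw [h5]
  simp only [Fin.val_zero, Fin.val_one, pow_zero, pow_one, Nat.cast_pow, Nat.cast_one]
  have h6 : ((q : ℝ) ^ 2 - 1) * ((q : ℝ) ^ 2 - q) - (q : ℝ) ^ 2 * ((q : ℝ) - 1) ^ 2 =
      q * ((q : ℝ) - 1) ^ 2 := by ring
  have h7 : (0 : ℝ) ≤ q * ((q : ℝ) - 1) ^ 2 := by positivity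
  linarith

/-- matrices over a product of rings -/
private theorem card_prod54 {R : Type} [CommRing R] {ι : Type} [Fintype ι] {S : ι → Type}
    [∀ i, CommRing (S i)] (e : R ≃+* ∀ i, S i) :
    Nat.card {A : Matrix (Fin 2) (Fin 2) R // IsUnit A.det} =
      ∏ i, Nat.card {A : Matrix (Fin 2) (Fin 2) (S i) // IsUnit A.det} := by
  rw [← Nat.card_pi]
  have key : ∀ A : Matrix (Fin 2) (Fin 2) R, IsUnit A.det ↔
      ∀ i, IsUnit (Matrix.of fun a b => e (A a b) i : Matrix (Fin 2) (Fin 2) (S i)).det := by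
    intro A
    rw [← isUnit_map_iff e, Pi.isUnit_iff]
    refine forall_congr' fun i => ?_
    have : e A.det i = (Matrix.of fun a b => e (A a b) i :
        Matrix (Fin 2) (Fin 2) (S i)).det := by
      rw [Matrix.det_fin_two, Matrix.det_fin_two]
      simp
    rw [this]
  refine Nat.card_congr
    { toFun := fun A i => ⟨Matrix.of fun a b => e (A.1 a b) i, (key A.1).1 A.2 i⟩
      invFun := fun B => ⟨Matrix.of fun a b => e.symm fun i => (B i).1 a b, (key _).2 fun i => by
        have : (Matrix.of fun a b => e ((Matrix.of fun a b => e.symm fun i => (B i).1 a b :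
            Matrix (Fin 2) (Fin 2) R) a b) i : Matrix (Fin 2) (Fin 2) (S i)) = (B i).1 := by
          ext a b
          simp
        rw [this]
        exact (B i).2⟩
      left_inv := fun A => by
        apply Subtype.ext
        ext a b
        simp
      right_inv := fun B => by
        funext i
        apply Subtype.ext
        ext a b
        simp }

/-- a positive proportion of the matrices is invertible -/
theorem card_isUnit_det (p : ℕ) [Fact p.Prime] (m : ℕ) (hm : 1 ≤ m) :
    Nat.card (RR p m) ^ 4 ≤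
      16 ^ m * Nat.card {A : Matrix (Fin 2) (Fin 2) (RR p m) // IsUnit A.det} := by
  classical
  have := finite54 p m hm
  have := reduced54 p m hm
  have : IsArtinianRing (RR p m) := inferInstance
  let : Fintype (MaximalSpectrum (RR p m)) := Fintype.ofFinite _
  let e : RR p m ≃+* ∀ I : MaximalSpectrum (RR p m), RR p m ⧸ I.asIdeal :=
    IsArtinianRing.equivPi (RR p m)
  have h1 : Nat.card (RR p m) = ∏ I : MaximalSpectrum (RR p m), Nat.card (RR p m ⧸ I.asIdeal) := by
    rw [← Nat.card_pi]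
    exact Nat.card_congr e.toEquiv
  have hex : ∀ I : MaximalSpectrum (RR p m), ∃ k ∈ Finset.Icc 1 m,
      Nat.card (RR p m ⧸ I.asIdeal) = p ^ k := by
    intro I
    have : I.asIdeal.IsMaximal := I.isMaximal
    have : Finite (RR p m ⧸ I.asIdeal) :=
      Finite.of_surjective (Ideal.Quotient.mk I.asIdeal) Ideal.Quotient.mk_surjective
    let : Field (RR p m ⧸ I.asIdeal) := Ideal.Quotient.field I.asIdeal
    exact card_field54 (Ideal.Quotient.mk I.asIdeal) Ideal.Quotient.mk_surjective hm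
  choose d hd hcard using hex
  have hp1 : 1 < p := (Fact.out : p.Prime).one_lt
  have h2 : (1 / 4 : ℝ) ^ m ≤ ∏ I : MaximalSpectrum (RR p m),
      (1 - 1 / (Nat.card (RR p m ⧸ I.asIdeal) : ℝ)) := by
    rw [← Finset.prod_fiberwise_of_maps_to (s := Finset.univ) (t := Finset.Icc 1 m) (g := d)
      (fun I _ => hd I)]
    have h3 : (1 / 4 : ℝ) ^ m = ∏ _k ∈ Finset.Icc 1 m, (1 / 4 : ℝ) := by
      rw [Finset.prod_const, Nat.card_Icc, Nat.add_sub_cancel]
    rw [h3]
    apply Finset.prod_le_prod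
    · intro k _
      norm_num
    · intro k hk
      have hk1 : 1 ≤ k := (Finset.mem_Icc.1 hk).1
      have hQ : 2 ≤ p ^ k := Nat.one_lt_pow (by omega) hp1
      have h4 : ∏ I ∈ Finset.univ.filter (fun I => d I = k),
          (1 - 1 / (Nat.card (RR p m ⧸ I.asIdeal) : ℝ)) =
          (1 - 1 / ((p ^ k : ℕ) : ℝ)) ^ (Finset.univ.filter fun I => d I = k).card := by
        rw [← Finset.prod_const]
        refine Finset.prod_congr rfl fun I hI => ?_
        rw [hcard I, (Finset.mem_filter.1 hI).2]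
      rw [h4]
      have hQ' : (2 : ℝ) ≤ ((p ^ k : ℕ) : ℝ) := by exact_mod_cast hQ
      have hinv : 1 / ((p ^ k : ℕ) : ℝ) ≤ 1 := by
        rw [div_le_one (by linarith)]
        linarith
      have hinv0 : 0 ≤ 1 / ((p ^ k : ℕ) : ℝ) := by positivity
      refine (pow_ge54 (p ^ k) hQ).trans (pow_le_pow_of_le_one (by linarith) (by linarith) ?_)
      refine card_max54 p m k hk1 hm _ fun I hI => ?_
      rw [hcard I, (Finset.mem_filter.1 hI).2]
  have h5 : ((Nat.card (RR p m) : ℝ)) ^ 4 *
      (∏ I : MaximalSpectrum (RR p m), (1 - 1 / (Nat.card (RR p m ⧸ I.asIdeal) : ℝ))) ^ 2 ≤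
      (Nat.card {A : Matrix (Fin 2) (Fin 2) (RR p m) // IsUnit A.det} : ℝ) := by
    rw [h1, card_prod54 e, Nat.cast_prod, Nat.cast_prod, ← Finset.prod_pow, ← Finset.prod_pow,
      ← Finset.prod_mul_distrib]
    apply Finset.prod_le_prod
    · intro I _
      positivity
    · intro I _
      have : I.asIdeal.IsMaximal := I.isMaximal
      have : Finite (RR p m ⧸ I.asIdeal) :=
        Finite.of_surjective (Ideal.Quotient.mk I.asIdeal) Ideal.Quotient.mk_surjective
      let : Field (RR p m ⧸ I.asIdeal) := Ideal.Quotient.field I.asIdeal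
      exact card_gl54 (RR p m ⧸ I.asIdeal)
  have h6 : (1 / 16 : ℝ) ^ m ≤
      (∏ I : MaximalSpectrum (RR p m), (1 - 1 / (Nat.card (RR p m ⧸ I.asIdeal) : ℝ))) ^ 2 := by
    have h7 : (1 / 16 : ℝ) ^ m = ((1 / 4 : ℝ) ^ m) ^ 2 := by
      rw [← pow_mul, mul_comm, pow_mul]
      norm_num
    rw [h7]
    exact pow_le_pow_left₀ (by positivity) h2 2
  have h8 : ((Nat.card (RR p m) : ℝ)) ^ 4 * (1 / 16 : ℝ) ^ m ≤
      (Nat.card {A : Matrix (Fin 2) (Fin 2) (RR p m) // IsUnit A.det} : ℝ) :=
    (mul_le_mul_of_nonneg_left h6 (by positivity)).trans h5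
  have h9 : ((Nat.card (RR p m) : ℝ)) ^ 4 ≤ (16 : ℝ) ^ m *
      (Nat.card {A : Matrix (Fin 2) (Fin 2) (RR p m) // IsUnit A.det} : ℝ) := by
    have h10 : (16 : ℝ) ^ m * (((Nat.card (RR p m) : ℝ)) ^ 4 * (1 / 16 : ℝ) ^ m) =
        ((Nat.card (RR p m) : ℝ)) ^ 4 := by
      rw [one_div, inv_pow]
      field_simp
    calc ((Nat.card (RR p m) : ℝ)) ^ 4 =
        (16 : ℝ) ^ m * (((Nat.card (RR p m) : ℝ)) ^ 4 * (1 / 16 : ℝ) ^ m) := h10.symm
      _ ≤ _ := mul_le_mul_of_nonneg_left h8 (by positivity)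
  exact_mod_cast h9

end Pool.Agent.Helper87.LW1
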