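import Mathlib
import Pool.Agent.Helper87.LW1.Crit
import Pool.Agent.Helper87.LW1.Ring

/-!
# LW1: independence of the reductions at all points of bounded degree of the line
-/

set_option autoImplicit false

namespace Pool.Agent.Helper87.LW1

open MvPolynomial Pool.Agent.Helper87.LD

noncomputable section

section hom2

variable {R : Type*} [CommRing R]

/-- the form of degree `d` given by a polynomial -/
def hom2 (d : ℕ) (f : Polynomial R) : MvPolynomial (Fin 2) R :=
  ∑ k ∈ Finset.range (d + 1), C (f.coeff k) * (X 0 ^ k * X 1 ^ (d - k))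

theorem hom2_isHomogeneous (d : ℕ) (f : Polynomial R) : (hom2 d f).IsHomogeneous d := by
  refine IsHomogeneous.sum _ _ _ fun k hk => ?_
  have hk' : k ≤ d := by
    rw [Finset.mem_range] at hk
    omega
  have h1 : (C (f.coeff k) * (X 0 ^ k * X 1 ^ (d - k)) : MvPolynomial (Fin 2) R).IsHomogeneous
      (0 + (1 * k + 1 * (d - k))) :=
    (isHomogeneous_C _ _).mul (((isHomogeneous_X R 0).pow k).mul ((isHomogeneous_X R 1).pow (d - k)))
  have h2 : 0 + (1 * k + 1 * (d - k)) = d := by omega
  rwa [h2] at h1

theorem deh_hom2 {d : ℕ} {f : Polynomial R} (hf : f.natDegree < d + 1) : deh (hom2 d f) = f := by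
  rw [deh, hom2, map_sum]
  conv_rhs => rw [Polynomial.as_sum_range_C_mul_X_pow' f hf]
  refine Finset.sum_congr rfl fun k _ => ?_
  rw [map_mul, map_mul, map_pow, map_pow, aeval_X, aeval_X]
  simp

theorem eval_hom2 (d : ℕ) (f : Polynomial R) : eval ![1, 0] (hom2 d f) = f.coeff d := by
  rw [hom2, map_sum, Finset.sum_eq_single d]
  · simp
  · intro k hk hkd
    rw [Finset.mem_range] at hk
    have h1 : d - k ≠ 0 := by omega
    simp [h1]
  · intro h
    exact absurd (Finset.mem_range.2 (Nat.lt_succ_self d)) h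

theorem eval_pderiv_hom2 {d : ℕ} (hd : 1 ≤ d) (f : Polynomial R) :
    eval ![1, 0] (pderiv 1 (hom2 d f)) = f.coeff (d - 1) := by
  have h0 : ∀ k, eval ![1, 0] (pderiv 1 (C (f.coeff k) * (X 0 ^ k * X 1 ^ (d - k)) :
      MvPolynomial (Fin 2) R)) = f.coeff k * ((d - k : ℕ) * (0 : R) ^ (d - k - 1)) := by
    intro k
    rw [pderiv_C_mul, Derivation.leibniz, Derivation.leibniz_pow, Derivation.leibniz_pow,
      pderiv_X_self, pderiv_X_of_ne (by decide : (0 : Fin 2) ≠ 1)]
    simp
  rw [hom2, map_sum, map_sum, Finset.sum_congr rfl fun k _ => h0 k, Finset.sum_eq_single (d - 1)]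
  · have h1 : d - (d - 1) = 1 := by omega
    rw [h1]
    simp
  · intro k hk hkd
    rw [Finset.mem_range] at hk
    by_cases hk' : k = d
    · rw [hk']
      simp
    · have h1 : d - k - 1 ≠ 0 := by omega
      simp [h1]
  · intro h
    exact absurd (Finset.mem_range.2 (by omega)) h

end hom2

variable {p : ℕ} [hp : Fact p.Prime] {m : ℕ}

/-- the polynomial which vanishes on the field with `p ^ m` elements -/
abbrev hh (p m : ℕ) : Polynomial (ZMod p) := Polynomial.X ^ (p ^ m) - Polynomial.X

theorem derivative_hh (hm : 1 ≤ m) : Polynomial.derivative (hh p m) = -1 := by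
  have h1 : ((p ^ m : ℕ) : Polynomial (ZMod p)) = 0 := by
    have h2 : ((p : ℕ) : Polynomial (ZMod p)) = 0 := CharP.cast_eq_zero _ p
    rw [Nat.cast_pow, h2, zero_pow (by omega)]
  rw [hh, Polynomial.derivative_sub, Polynomial.derivative_X_pow, Polynomial.derivative_X]
  have h3 : (Polynomial.C ((p ^ m : ℕ) : ZMod p) : Polynomial (ZMod p)) = 0 := by
    rw [← h1]
    simp
  rw [h3, zero_mul, zero_sub]

theorem natDegree_hh (hm : 1 ≤ m) : (hh p m).natDegree = p ^ m := by
  have h1 : 1 < p ^ m := Nat.one_lt_pow (by omega) hp.out.one_lt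
  exact FiniteField.X_pow_card_sub_X_natDegree_eq _ h1

theorem monic_hh (hm : 1 ≤ m) : (hh p m).Monic := by
  have h1 : 1 < p ^ m := Nat.one_lt_pow (by omega) hp.out.one_lt
  exact Polynomial.monic_X_pow_sub (by rw [Polynomial.degree_X]; exact_mod_cast h1)

/-- the values and the derivatives at the affine points -/
def mat (m : ℕ) {d : ℕ} (c : Idx 2 d → ZMod p) : Matrix (Fin 2) (Fin 2) (RR p m) :=
  Matrix.of fun i => ![AdjoinRoot.mk (hh p m) (Polynomial.derivative (deh (form c i))),
    AdjoinRoot.mk (hh p m) (deh (form c i))]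

/-- the value and the derivative at the point at infinity -/
def mati {d : ℕ} (c : Idx 2 d → ZMod p) : Matrix (Fin 2) (Fin 2) (ZMod p) :=
  Matrix.of fun i => ![eval ![1, 0] (pderiv 1 (form c i)), eval ![1, 0] (form c i)]

theorem form_add {n d : ℕ} {R : Type*} [CommRing R] (c e : Idx n d → R) (i : Fin n) :
    form (c + e) i = form c i + form e i := by
  simp only [form, Pi.add_apply, map_add, Finset.sum_add_distrib]

theorem form_zero {n d : ℕ} {R : Type*} [CommRing R] (i : Fin n) :
    form (0 : Idx n d → R) i = 0 := by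
  simp [form]

/-- all the local data -/
def jets (m d : ℕ) : (Idx 2 d → ZMod p) →+
    Matrix (Fin 2) (Fin 2) (RR p m) × Matrix (Fin 2) (Fin 2) (ZMod p) where
  toFun c := (mat m c, mati c)
  map_zero' := by
    refine Prod.ext ?_ ?_
    · ext i j
      fin_cases j <;> simp [mat, form_zero, deh]
    · ext i j
      fin_cases j <;> simp [mati, form_zero]
  map_add' c e := by
    refine Prod.ext ?_ ?_
    · ext i j
      fin_cases j <;> simp [mat, form_add, deh]
    · ext i j
      fin_cases j <;> simp [mati, form_add]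

theorem jets_surj (hm : 1 ≤ m) {d : ℕ} (hd : 2 * p ^ m + 1 ≤ d) :
    Function.Surjective (jets (p := p) m d) := by
  rintro ⟨A, B⟩
  have hmk : ∀ i j, ∃ a : Polynomial (ZMod p), AdjoinRoot.mk (hh p m) a = A i j := fun i j =>
    AdjoinRoot.mk_surjective _
  choose a ha using hmk
  let r : Fin 2 → Polynomial (ZMod p) := fun i =>
    a i 1 + hh p m * (Polynomial.derivative (a i 1) - a i 0)
  let P : Fin 2 → Polynomial (ZMod p) := fun i =>
    Polynomial.C (B i 1) * Polynomial.X ^ d + Polynomial.C (B i 0) * Polynomial.X ^ (d - 1)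
  have hm2 : (hh p m ^ 2).Monic := (monic_hh hm).pow 2
  let f : Fin 2 → Polynomial (ZMod p) := fun i => P i + (r i - P i) %ₘ (hh p m ^ 2)
  have hrem : ∀ g : Polynomial (ZMod p), (g %ₘ (hh p m ^ 2)).natDegree < 2 * p ^ m := by
    intro g
    have h1 : (hh p m ^ 2) ≠ 1 := by
      intro h
      have h2 := congrArg Polynomial.natDegree h
      rw [(monic_hh hm).natDegree_pow, natDegree_hh hm, Polynomial.natDegree_one] at h2
      have h3 : 0 < p ^ m := pow_pos hp.out.pos m
      omega
    have h2 := Polynomial.natDegree_modByMonic_lt g hm2 h1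
    rwa [(monic_hh hm).natDegree_pow, natDegree_hh hm] at h2
  have hP : ∀ i, (P i).natDegree < d + 1 := by
    intro i
    refine Nat.lt_succ_of_le ((Polynomial.natDegree_add_le _ _).trans (max_le ?_ ?_))
    · exact (Polynomial.natDegree_C_mul_X_pow_le _ _)
    · exact (Polynomial.natDegree_C_mul_X_pow_le _ _).trans (by omega)
  have hf : ∀ i, (f i).natDegree < d + 1 := by
    intro i
    refine lt_of_le_of_lt (Polynomial.natDegree_add_le _ _) (max_lt (hP i) ?_)
    have := hrem (r i - P i)
    omega
  have hfd : ∀ i, (f i).coeff d = B i 1 := by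
    intro i
    have h1 : ((r i - P i) %ₘ (hh p m ^ 2)).coeff d = 0 :=
      Polynomial.coeff_eq_zero_of_natDegree_lt ((hrem _).trans_le (by omega))
    simp only [f, P]
    rw [Polynomial.coeff_add, h1, Polynomial.coeff_add, Polynomial.coeff_C_mul_X_pow,
      Polynomial.coeff_C_mul_X_pow, if_pos rfl, if_neg (by omega), add_zero, add_zero]
  have hfd1 : ∀ i, (f i).coeff (d - 1) = B i 0 := by
    intro i
    have h1 : ((r i - P i) %ₘ (hh p m ^ 2)).coeff (d - 1) = 0 :=
      Polynomial.coeff_eq_zero_of_natDegree_lt ((hrem _).trans_le (by omega))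
    simp only [f, P]
    rw [Polynomial.coeff_add, h1, Polynomial.coeff_add, Polynomial.coeff_C_mul_X_pow,
      Polynomial.coeff_C_mul_X_pow, if_neg (by omega), if_pos rfl, add_zero, zero_add]
  have hfr : ∀ i, ∃ G : Polynomial (ZMod p), f i = r i + hh p m ^ 2 * G := by
    intro i
    have h1 := Polynomial.modByMonic_add_div (r i - P i) (hh p m ^ 2)
    refine ⟨-((r i - P i) /ₘ (hh p m ^ 2)), ?_⟩
    simp only [f]
    linear_combination h1
  choose G hG using hfr
  have hmk0 : AdjoinRoot.mk (hh p m) (hh p m) = 0 := AdjoinRoot.mk_self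
  have hmkf : ∀ i, AdjoinRoot.mk (hh p m) (f i) = A i 1 := by
    intro i
    rw [hG i]
    simp only [r]
    rw [map_add, map_add, map_mul, map_mul, map_pow, hmk0, zero_mul, zero_pow two_ne_zero,
      zero_mul, add_zero, add_zero, ha]
  have hmkf' : ∀ i, AdjoinRoot.mk (hh p m) (Polynomial.derivative (f i)) = A i 0 := by
    intro i
    rw [hG i]
    simp only [r]
    rw [Polynomial.derivative_add, Polynomial.derivative_add, Polynomial.derivative_mul,
      Polynomial.derivative_mul, Polynomial.derivative_pow, derivative_hh hm]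
    simp only [map_add, map_mul, map_pow, map_neg, map_one, map_sub, hmk0]
    rw [ha]
    ring
  obtain ⟨c, hc⟩ := form_surj (fun i => hom2 d (f i)) fun i => hom2_isHomogeneous d (f i)
  refine ⟨c, Prod.ext ?_ ?_⟩
  · ext i j
    have h1 : form c i = hom2 d (f i) := congrFun hc i
    change mat m c i j = A i j
    fin_cases j
    · simp only [mat, Matrix.of_apply, h1, deh_hom2 (hf i)]
      exact hmkf' i
    · simp only [mat, Matrix.of_apply, h1, deh_hom2 (hf i)]
      exact hmkf i
  · ext i j
    have h1 : form c i = hom2 d (f i) := congrFun hc i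
    change mati c i j = B i j
    fin_cases j
    · simp only [mati, Matrix.of_apply, h1]
      exact (eval_pderiv_hom2 (by omega) (f i)).trans (hfd1 i)
    · simp only [mati, Matrix.of_apply, h1]
      exact (eval_hom2 d (f i)).trans (hfd i)

end

end Pool.Agent.Helper87.LW1
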