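import Mathlib
import Pool.Agent.Helper87.LW1.Surj
import Pool.Agent.Helper87.LW.Dens

/-!
# LW1: the density of good reductions at all points of bounded degree of the line
-/

set_option autoImplicit false

namespace Pool.Agent.Helper87.LW1

open MvPolynomial Pool.Agent.Helper87.LD

noncomputable section

variable {p : ℕ} [hp : Fact p.Prime] {m : ℕ}

/-- a unit modulo `X ^ (p ^ m) - X` is prime to it -/
theorem isCoprime_of_isUnit {u : Polynomial (ZMod p)} (h : IsUnit (AdjoinRoot.mk (hh p m) u)) :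
    IsCoprime u (hh p m) := by
  obtain ⟨v', hv'⟩ := h.exists_right_inv
  obtain ⟨v, rfl⟩ := AdjoinRoot.mk_surjective v'
  rw [← map_mul, ← map_one (AdjoinRoot.mk (hh p m)), AdjoinRoot.mk_eq_mk] at hv'
  obtain ⟨w, hw⟩ := hv'
  exact ⟨v, -w, by linear_combination hw⟩

theorem det_mat {d : ℕ} (c : Idx 2 d → ZMod p) :
    (mat m c).det = AdjoinRoot.mk (hh p m) (wr (deh (form c 0)) (deh (form c 1))) := by
  rw [Matrix.det_fin_two, wr]
  simp only [mat, Matrix.of_apply, Matrix.cons_val_zero, Matrix.cons_val_one, map_sub, map_mul]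
  ring

theorem det_mati {d : ℕ} (c : Idx 2 d → ZMod p) :
    (mati c).det = eval ![1, 0] (pderiv 1 (form c 0)) * eval ![1, 0] (form c 1) -
      eval ![1, 0] (pderiv 1 (form c 1)) * eval ![1, 0] (form c 0) := by
  rw [Matrix.det_fin_two]
  simp only [mati, Matrix.of_apply, Matrix.cons_val_zero, Matrix.cons_val_one]
  ring

theorem card_det_ne (hp5 : 5 ≤ p) :
    p ^ 4 ≤ 2 * Nat.card {B : Matrix (Fin 2) (Fin 2) (ZMod p) // B.det ≠ 0} := by
  have h1 : Nat.card {B : Matrix (Fin 2) (Fin 2) (ZMod p) // B.det ≠ 0} =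
      Nat.card (Matrix.GeneralLinearGroup (Fin 2) (ZMod p)) := by
    refine Nat.card_congr
      { toFun := fun B => Matrix.GeneralLinearGroup.mkOfDetNeZero B.1 B.2
        invFun := fun g => ⟨g.1, ?_⟩
        left_inv := fun B => rfl
        right_inv := fun g => Units.ext rfl }
    have h2 : IsUnit (g.1 : Matrix (Fin 2) (Fin 2) (ZMod p)).det :=
      (Matrix.isUnit_iff_isUnit_det _).1 g.isUnit
    exact h2.ne_zero
  rw [h1, Matrix.card_GL_field]
  have h2 : Fintype.card (ZMod p) = p := ZMod.card p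
  rw [h2, Fin.prod_univ_two]
  have h3 : 1 ≤ p ^ 2 := Nat.one_le_pow _ _ (by omega)
  have h4 : p ≤ p ^ 2 := by nlinarith
  simp only [Fin.val_zero, Fin.val_one, pow_zero, pow_one]
  zify [h3, h4]
  have h5 : (5 : ℤ) ≤ p := by exact_mod_cast hp5
  nlinarith [mul_self_nonneg ((p : ℤ) ^ 2), mul_nonneg (by linarith : (0 : ℤ) ≤ (p : ℤ) - 5)
    (by positivity : (0 : ℤ) ≤ (p : ℤ) ^ 3), mul_nonneg (by linarith : (0 : ℤ) ≤ (p : ℤ) - 5)
    (by positivity : (0 : ℤ) ≤ (p : ℤ) ^ 2)]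

instance finite_RR (p m : ℕ) [Fact p.Prime] [NeZero m] : Finite (RR p m) := by
  have h1 : 1 ≤ m := Nat.one_le_iff_ne_zero.2 (NeZero.ne m)
  have h2 : Module.Finite (ZMod p) (RR p m) := (monic_hh h1).finite_adjoinRoot
  exact Module.finite_of_finite (ZMod p)

/-- **The density for the projective line.** -/
theorem good_densityD_line (D : ℕ) : ∃ κ p₀ : ℕ, 0 < κ ∧ ∀ (p : ℕ) [Fact p.Prime], p₀ ≤ p →
    ∃ d₀ : ℕ, ∀ d, d₀ ≤ d → p ^ Fintype.card (Idx 2 d) ≤
      κ * Nat.card {c : Idx 2 d → ZMod p // GoodD D (form c)} := by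
  classical
  set m := D.factorial with hm
  have hm1 : 1 ≤ m := Nat.factorial_pos D
  have : NeZero m := ⟨by omega⟩
  refine ⟨2 * 16 ^ m, 5, by positivity, fun p hp hp5 => ⟨2 * p ^ m + 1, fun d hd => ?_⟩⟩
  have := Fintype.ofFinite (RR p m)
  set T : Finset (Matrix (Fin 2) (Fin 2) (RR p m) × Matrix (Fin 2) (Fin 2) (ZMod p)) :=
    (Finset.univ.filter fun A => IsUnit A.det) ×ˢ (Finset.univ.filter fun B => B.det ≠ 0) with hT
  have hfib := fib_card (jets (p := p) m d) Finset.univ T (fun b _ => jets_surj hm1 hd b)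
    (fun _ => Finset.mem_univ _) (Finset.subset_univ _)
  have hT' : T.card = Nat.card {A : Matrix (Fin 2) (Fin 2) (RR p m) // IsUnit A.det} *
      Nat.card {B : Matrix (Fin 2) (Fin 2) (ZMod p) // B.det ≠ 0} := by
    rw [hT, Finset.card_product, Nat.card_eq_fintype_card, Fintype.card_subtype,
      Nat.card_eq_fintype_card, Fintype.card_subtype]
  have hTpos : 0 < T.card := by
    rw [Finset.card_pos]
    exact ⟨(1, 1), Finset.mem_product.2 ⟨Finset.mem_filter.2 ⟨Finset.mem_univ _, by simp⟩,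
      Finset.mem_filter.2 ⟨Finset.mem_univ _, by simp⟩⟩⟩
  have hU : (Finset.univ : Finset (Matrix (Fin 2) (Fin 2) (RR p m) ×
      Matrix (Fin 2) (Fin 2) (ZMod p))).card = Nat.card (RR p m) ^ 4 * p ^ 4 := by
    rw [Finset.card_univ, Fintype.card_prod, ← Nat.card_eq_fintype_card,
      ← Nat.card_eq_fintype_card]
    have h1 : Nat.card (Matrix (Fin 2) (Fin 2) (RR p m)) = Nat.card (RR p m) ^ 4 := by
      have h2 : Nat.card (Matrix (Fin 2) (Fin 2) (RR p m)) =
          Nat.card (Fin 2 → Fin 2 → RR p m) := rfl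
      rw [h2, Nat.card_fun, Nat.card_fun, Nat.card_fin, ← pow_mul]
    have h2 : Nat.card (Matrix (Fin 2) (Fin 2) (ZMod p)) = p ^ 4 := by
      have h3 : Nat.card (Matrix (Fin 2) (Fin 2) (ZMod p)) =
          Nat.card (Fin 2 → Fin 2 → ZMod p) := rfl
      rw [h3, Nat.card_fun, Nat.card_fun, Nat.card_fin, ← pow_mul, Nat.card_zmod]
    rw [h1, h2]
  have hcA : Fintype.card (Idx 2 d → ZMod p) = p ^ Fintype.card (Idx 2 d) := by
    rw [Fintype.card_fun, ZMod.card]
  rw [hU, hcA] at hfib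
  have h1 := card_isUnit_det p m hm1
  have h2 := card_det_ne (p := p) hp5
  have h3 : Nat.card (RR p m) ^ 4 * p ^ 4 ≤ 2 * 16 ^ m * T.card := by
    rw [hT']
    calc _ ≤ (16 ^ m * Nat.card {A : Matrix (Fin 2) (Fin 2) (RR p m) // IsUnit A.det}) *
          (2 * Nat.card {B : Matrix (Fin 2) (Fin 2) (ZMod p) // B.det ≠ 0}) := Nat.mul_le_mul h1 h2
      _ = _ := by ring
  have h4 : p ^ Fintype.card (Idx 2 d) ≤ 2 * 16 ^ m *
      (Finset.univ.filter fun c => jets (p := p) m d c ∈ T).card := by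
    refine Nat.le_of_mul_le_mul_right ?_ hTpos
    rw [← hfib]
    calc _ ≤ (Finset.univ.filter fun c => jets (p := p) m d c ∈ T).card *
          (2 * 16 ^ m * T.card) := Nat.mul_le_mul_left _ h3
      _ = _ := by ring
  refine h4.trans (Nat.mul_le_mul_left _ ?_)
  rw [Nat.card_eq_fintype_card, Fintype.card_subtype]
  refine Finset.card_le_card fun c hc => ?_
  rw [Finset.mem_filter] at hc ⊢
  obtain ⟨hA, hB⟩ := Finset.mem_product.1 hc.2
  have hA' : IsUnit (mat m c).det := (Finset.mem_filter.1 hA).2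
  have hB' : (mati c).det ≠ 0 := (Finset.mem_filter.1 hB).2
  rw [det_mat] at hA'
  rw [det_mati] at hB'
  exact ⟨Finset.mem_univ _, goodD_of_wr (fun i => form_isHomogeneous c i)
    (isCoprime_of_isUnit hA') hB'⟩

end

end Pool.Agent.Helper87.LW1
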